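import Pool.Agent.K3h69.KQ.CoreQ
import Pool.Agent.K3h40.KB.Num
import Pool.Agent.K3h40.KB.Pair
import Pool.Agent.K3h41.KB.HKZ
import Pool.Agent.K3h45.KB.UNI
import Pool.Agent.K3h57.KB.Qin
import Pool.Agent.K3h85.KB.BLI

set_option autoImplicit false

/-!
# The nef cone conjecture for the finite quotients of the blow-ups of `E ^ n / μ_m`

Let `E = ℂ / ℤ[ω]` where `ω` is a primitive cube root of unity, let `μ_m`, `m ∣ 6`, act on `E^n` by
multiplication, and let `X` be the blow-up of `E^n / μ_m` in the image of `0`, with exceptional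
divisor `P`. Let `Φ` be a finite group of linear automorphisms of `ℂ^n` which map the lattice
`ℤ[ω]^n` onto itself. It acts on `X`, and `X / Φ` has a boundary divisor `Δ` such that
`K_X + (1 - n / m) P` is the pullback of `K_{X/Φ} + Δ`; for `n ≤ m` the pair `(X / Φ, Δ)` is a klt
Calabi-Yau pair. The space `N^1(X / Φ)` is the space `N^1(X)^Φ` of the invariant classes, and a class
in this space is nef (effective) on `X / Φ` if and only if it is nef (effective) on `X`. The theorem
says that for `2 ≤ n ≤ 6` the cone `Nef^e(X / Φ)` is equal to `Nef^+(X / Φ)` and has a rational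
polyhedral fundamental domain for the action of `Aut(X / Φ, Δ)`. For `Φ = 1` it is a
statement on `X` itself; the case `Φ = 1`, `n ≤ 4` is the theorem of
`Pool.Agent.Results.MP_9f99c5_ag.KummerBlowUps`, the dimensions `5` and `6` are new.

For the dimensions `5` and `6` the key inequality of the geometry of numbers is new
(`Pool.Agent.K3h69.KB`): if `H` is a positive definite hermitian form on `ℤ[ω]^n`, `n ≤ 6`, and `M` is
a positive form on the dual lattice with `M ≥ 1` outside a proper submodule `J`, then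
`trace (M H) ≥ min H` (with a constant larger than `1` for `J = 0` and `2 ≤ n`). For the quotients
there is a descent argument (`Pool.Agent.K3h69.KQ`): if `z` is an interior class in the
finitely generated cone whose translates cover the interior of the nef cone, then only finitely many
elements of the group fix such a class; so only finitely many conjugates of `Φ` fix such a class, and
the translates by the elements which commute with `Φ` of finitely many finitely generated cones cover
the interior of the cone of the invariant nef classes.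

`kum`, `BlBundle`, `IsClass`, `N1s`, `N1`, `form`, `coef`, `integral`, `semiample`, `effective`,
`nefCone`, `effCone` and `Normalizes` are defined in `Pool.Agent.R895.Defs`; `LinGrp`, `Preserves` and
`IsFundDomain` in `Pool.Agent.Y167.Stm`; `cone` in `Pool.Agent.Y167.ConeDef`.
-/

namespace Pool.Agent.Results.MP_9f99c5_ag.QuotientsOfKummerBlowUps

open Pool.Agent.R895
open Pool.Agent.K3h69.KB (Bricks)
open Pool.Agent.Y167 (cone)
open Pool.Agent.Y167.CC (LinGrp Preserves IsFundDomain)

variable {n m : ℕ}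

/-- The space `N^1(X)` for the blow-up `X` of `E^n / μ_m` in the image of `0`. -/
def NS (n m : ℕ) : Type := N1 (kum (Fin n) m) (LinearMap.id : (Fin n → ℂ) →ₗ[ℂ] (Fin n → ℂ))

noncomputable instance : AddCommGroup (NS n m) :=
  Submodule.addCommGroup (N1s (kum (Fin n) m) LinearMap.id)

noncomputable instance : Module ℝ (NS n m) :=
  Submodule.module (N1s (kum (Fin n) m) LinearMap.id)

noncomputable instance : TopologicalSpace (NS n m) :=
  instTopologicalSpaceSubtype (p := fun h => h ∈ N1s (kum (Fin n) m) LinearMap.id)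

/-- The hermitian form of a class. -/
noncomputable def fm (x : NS n m) : (Fin n → ℂ) → (Fin n → ℂ) → ℂ := form x

/-- The coefficient of `-P` in a class. -/
noncomputable def cf (x : NS n m) : ℝ := coef x

/-- The group generated by the integral classes in `N^1(X)`, that is, by the classes of line
bundles. -/
noncomputable def intNS (n m : ℕ) : AddSubgroup (NS n m) :=
  AddSubgroup.closure (integral (kum (Fin n) m) LinearMap.id)

/-- The nef cone `Nef(X)`. -/
def nefNS (n m : ℕ) : Set (NS n m) := nefCone (kum (Fin n) m) LinearMap.id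

/-- The cone `Nef^e(X)` of nef and effective classes. -/
def nefEff (n m : ℕ) : Set (NS n m) := nefNS n m ∩ effCone (kum (Fin n) m) LinearMap.id

/-- The linear automorphisms of `ℂ^n`. -/
abbrev GLn (n : ℕ) : Type := (Fin n → ℂ) ≃ₗ[ℂ] (Fin n → ℂ)

/-- The space `N^1(X)^Φ` of the classes in `N^1(X)` which are invariant under `Φ`: the
hermitian form is invariant under `Φ`. (The pullback by a linear automorphism does not change the
coefficient of the exceptional divisor.) -/
def invNS (m : ℕ) (Φ : Subgroup (GLn n)) : Submodule ℝ (NS n m) where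
  carrier := {x | ∀ f ∈ Φ, ∀ u w, fm x (f u) (f w) = fm x u w}
  add_mem' := by
    intro x y hx hy f hf u w
    have h1 : fm (x + y) (f u) (f w) = fm x (f u) (f w) + fm y (f u) (f w) := rfl
    have h2 : fm (x + y) u w = fm x u w + fm y u w := rfl
    rw [h1, h2, hx f hf, hy f hf]
  zero_mem' := fun _ _ _ _ => rfl
  smul_mem' := by
    intro t x hx f hf u w
    have h1 : fm (t • x) (f u) (f w) = t • fm x (f u) (f w) := rfl
    have h2 : fm (t • x) u w = t • fm x u w := rfl
    rw [h1, h2, hx f hf]

/-- The space `N^1(X / Φ) = N^1(X)^Φ`. -/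
def NSQ (m : ℕ) (Φ : Subgroup (GLn n)) : Type := invNS m Φ

noncomputable instance (m : ℕ) (Φ : Subgroup (GLn n)) : AddCommGroup (NSQ m Φ) :=
  Submodule.addCommGroup (invNS m Φ)

noncomputable instance (m : ℕ) (Φ : Subgroup (GLn n)) : Module ℝ (NSQ m Φ) :=
  Submodule.module (invNS m Φ)

noncomputable instance (m : ℕ) (Φ : Subgroup (GLn n)) : TopologicalSpace (NSQ m Φ) :=
  instTopologicalSpaceSubtype (p := fun x => x ∈ invNS m Φ)

/-- The pullback `N^1(X / Φ) → N^1(X)`. -/
def up {Φ : Subgroup (GLn n)} (x : NSQ m Φ) : NS n m := x.1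

/-- The nef cone `Nef(X / Φ)`: the invariant nef classes. -/
def nefQ (m : ℕ) (Φ : Subgroup (GLn n)) : Set (NSQ m Φ) := {x | up x ∈ nefNS n m}

/-- The cone `Nef^e(X / Φ)`: the invariant nef effective classes. -/
def nefEffQ (m : ℕ) (Φ : Subgroup (GLn n)) : Set (NSQ m Φ) := {x | up x ∈ nefEff n m}

/-- `Λ` is a subgroup of finite index of the group of the integral classes which are invariant under
`Φ`. The group of the classes of line bundles on `X / Φ` has this property. -/
structure IsLatticeQ (m : ℕ) (Φ : Subgroup (GLn n)) (Λ : AddSubgroup (NSQ m Φ)) : Prop where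
  int : ∀ x ∈ Λ, up x ∈ intNS n m
  mul : ∃ k : ℕ, 0 < k ∧ ∀ x : NSQ m Φ, up x ∈ intNS n m → (k : ℝ) • x ∈ Λ

/-- The rational classes: those which have a positive multiple in `Λ`. -/
def ratQ {Φ : Subgroup (GLn n)} (Λ : AddSubgroup (NSQ m Φ)) : Set (NSQ m Φ) :=
  {x | ∃ N : ℕ, 0 < N ∧ (N : ℝ) • x ∈ Λ}

/-- `a` is the pullback by the automorphism of `X / Φ` which is induced by a linear automorphism `f`
of `ℂ^n` that normalises `kum (Fin n) m` and commutes with the elements of `Φ`. -/
def IsLinPull {Φ : Subgroup (GLn n)} (a : NSQ m Φ ≃ₗ[ℝ] NSQ m Φ) : Prop :=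
  ∃ f : GLn n, Normalizes (kum (Fin n) m) f ∧ (∀ h ∈ Φ, f * h = h * f) ∧
    (∀ (x : NSQ m Φ) (u w : Fin n → ℂ), fm (up (a x)) u w = fm (up x) (f u) (f w)) ∧
    ∀ x : NSQ m Φ, cf (up (a x)) = cf (up x)

/-- `𝒜` is a group of linear automorphisms of `N^1(X / Φ)` which preserves `Λ` and the cone of nef
and effective classes, and which contains the pullbacks `f^*` by all automorphisms of `X / Φ` which
are induced by linear automorphisms `f` of `ℂ^n` that commute with `Φ`. The image of
`Aut(X / Φ, Δ)` has these properties when `Λ` is the group of the classes of line bundles. -/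
structure IsAutGroup {Φ : Subgroup (GLn n)} (Λ : AddSubgroup (NSQ m Φ))
    (𝒜 : LinGrp (NSQ m Φ)) : Prop where
  int : Preserves 𝒜 (Λ : Set (NSQ m Φ))
  nef_eff : Preserves 𝒜 (nefEffQ m Φ)
  lin : ∀ a, IsLinPull a → a ∈ 𝒜

/-- The bricks. -/
theorem bricks : Bricks where
  bli := Pool.Agent.K3h85.KB.t_BLI
  hkz := Pool.Agent.K3h41.KB.t_HKZ Pool.Agent.K3h45.KB.t_UNI
  pair := Pool.Agent.K3h40.KB.t_PAIR Pool.Agent.K3h57.KB.t_QIN
  num := Pool.Agent.K3h40.KB.t_NUM Pool.Agent.K3h85.KB.t_BLI

theorem lat_of_normalizes {f : GLn n}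
    (hf : Normalizes (kum (Fin n) m) f) (v : Fin n → ℂ) (hv : Lat v) : Lat (f v) := by
  have h1 : AffineEquiv.constVAdd ℂ (Fin n → ℂ) v ∈ kum (Fin n) m := by
    refine ⟨1, v, one_pow _, one_pow _, hv, fun x => ?_⟩
    show v + x = (1 : ℂ) • x + v
    rw [one_smul, add_comm]
  obtain ⟨ζ, l, -, -, hl, h2⟩ := (hf _).1 h1
  have h3 := h2 0
  have h4 : (f.toAffineEquiv * AffineEquiv.constVAdd ℂ (Fin n → ℂ) v * f.toAffineEquiv⁻¹) 0 =
      f (v + f.symm 0) := rfl
  rw [h4, map_zero, add_zero, smul_zero, zero_add] at h3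
  rw [h3]
  exact hl

/-- Let `X` be the blow-up of `E^n / μ_m` in the image of `0`, where `E = ℂ / ℤ[ω]`, `m ∣ 6` and
`2 ≤ n ≤ 6`, and let `Φ` be a finite group of linear automorphisms of `ℂ^n` which induce
automorphisms of `X`. The cone `Nef^e(X / Φ)` of nef effective classes is equal to `Nef^+(X / Φ)`, the
convex hull of the rational nef classes. For each `𝒜` there is a finite set `S` of integral classes
such that the cone `Π` spanned by `S` consists of nef effective classes and is a fundamental domain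
for the action of `𝒜` on this cone. -/
theorem result (n m : ℕ) (hn : 2 ≤ n ∧ n ≤ 6) (_hm : m ∣ 6) (Φ : Subgroup (GLn n)) (hf : Finite Φ)
    (hΦ : ∀ f ∈ Φ, Normalizes (kum (Fin n) m) f) (Λ : AddSubgroup (NSQ m Φ))
    (hΛ : IsLatticeQ m Φ Λ) :
    nefEffQ m Φ = convexHull ℝ (nefQ m Φ ∩ ratQ Λ) ∧
    ∀ 𝒜 : LinGrp (NSQ m Φ), IsAutGroup Λ 𝒜 →
      ∃ S : Finset (NSQ m Φ), (∀ a ∈ S, a ∈ Λ) ∧ cone S ⊆ nefEffQ m Φ ∧
        IsFundDomain 𝒜 (nefEffQ m Φ) (cone S) := by
  have hne : Nonempty (Fin n) := ⟨⟨0, by omega⟩⟩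
  have hρ : Function.Injective (id : Fin n → Fin n) := Function.injective_id
  obtain ⟨k, hk, hkΛ⟩ := hΛ.mul
  obtain ⟨h1, h2⟩ := Pool.Agent.K3h69.KQ.coreQ bricks (id_isExt n) hρ hn.1
    hn.2 Φ (fun f hf => lat_of_normalizes (hΦ f hf)) (invNS m Φ) (fun x => Iff.rfl) Λ hΛ.int k hk hkΛ
  refine ⟨h1, fun 𝒜 h𝒜 => h2 𝒜 h𝒜.int h𝒜.nef_eff fun a u hu hu' hc hf hcf => ?_⟩
  exact h𝒜.lin a ⟨u, normalizes hu hu', hc, hf, hcf⟩

end Pool.Agent.Results.MP_9f99c5_ag.QuotientsOfKummerBlowUps
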